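import Pool.Agent.Q175.FB.Diff

/-!
A `C^1` free boundary that is not `C^{1,α}` for any `α > 0`, for the sign-changing right-hand side
`x₁`.

The domain is `D = {x₁ > h(x₂)}`, where near `0` the even function `h` is the inverse of
`t ↦ (2/π) t (4 - log t)`, so that `h(s) ~ (π/2) |s| / log (1/|s|)`. In `D ∩ B₂` the solution is
`u = x₁^3/6 + Re F(w)`, where `w` is the inverse of the conformal map `Φ(w) = (2/π) w (4 - log w)`
of the right half disc and `F' = (w^2/2) Φ'`.
-/

namespace Pool.Agent.Results.MP_056161_an.C1NotHolder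

open Set Filter Topology MeasureTheory
open scoped ContDiff

/-- The Euclidean plane. The coordinates `x₁, x₂` are `x 0, x 1`. -/
abbrev E2 : Type := EuclideanSpace ℝ (Fin 2)

/-- `D` is a Lipschitz domain: it is open and connected, and near each of its boundary points it is,
in suitable rectangular coordinates, the region on one side of the graph of a Lipschitz function. -/
def IsLipschitzDomain (D : Set E2) : Prop :=
  IsOpen D ∧ IsConnected D ∧ ∀ p ∈ frontier D,
    ∃ (R : E2 ≃ₗᵢ[ℝ] E2) (f : ℝ → ℝ) (K : NNReal) (ρ : ℝ), LipschitzWith K f ∧ 0 < ρ ∧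
      ∀ x ∈ Metric.ball p ρ, (x ∈ D ↔ f (R (x - p) 1) < R (x - p) 0)

/-- `u ∈ C^{1,1}_loc(Ω)`: `u` is differentiable on `Ω` and its derivative is locally Lipschitz
on `Ω`. -/
def C11Loc (u : E2 → ℝ) (Ω : Set E2) : Prop :=
  (∀ x ∈ Ω, DifferentiableAt ℝ u x) ∧
    ∀ x ∈ Ω, ∃ K : NNReal, ∃ U ∈ 𝓝 x, LipschitzOnWith K (fderiv ℝ u) (U ∩ Ω)

/-- The Laplacian `∂₁∂₁u + ∂₂∂₂u`. -/
noncomputable def lap (u : E2 → ℝ) (x : E2) : ℝ :=
  ∑ i : Fin 2, fderiv ℝ (fderiv ℝ u) x (EuclideanSpace.single i 1) (EuclideanSpace.single i 1)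

/-- `u ∈ C^{1,1}_loc(B₂)`, `Δu = x₁ χ_D` almost everywhere in `B₂`, `u = 0` on
`B₂` outside the closure of `D`. -/
def IsSolution (D : Set E2) (u : E2 → ℝ) : Prop :=
  C11Loc u (Metric.ball 0 2) ∧
    (∀ᵐ x ∂(volume.restrict (Metric.ball (0 : E2) 2)), DifferentiableAt ℝ (fderiv ℝ u) x ∧
      lap u x = x 0 * D.indicator (fun _ => (1 : ℝ)) x) ∧
    ∀ x ∈ Metric.ball (0 : E2) 2 \ closure D, u x = 0

/-- The boundary of `D` is of class `𝒞` near `0`: for some `ρ > 0`, in rotated coordinates, the part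
of the boundary in the ball `B_ρ` is the graph of a function `f` of one variable which is of
class `𝒞` on the interval `(-ρ, ρ)`. -/
def BoundaryOfClass (𝒞 : ℝ → (ℝ → ℝ) → Prop) (D : Set E2) : Prop :=
  ∃ ρ : ℝ, 0 < ρ ∧ ∃ (R : E2 ≃ₗᵢ[ℝ] E2) (f : ℝ → ℝ), 𝒞 ρ f ∧
    ∀ x ∈ Metric.ball (0 : E2) ρ, (x ∈ frontier D ↔ R x 0 = f (R x 1))

/-- `f` is `C^1` on `(-ρ, ρ)`. -/
def ClassC1 (ρ : ℝ) (f : ℝ → ℝ) : Prop := ContDiffOn ℝ 1 f (Ioo (-ρ) ρ)

/-- `f` is `C^{1,α}` on `(-ρ, ρ)`: it is differentiable there and its derivative is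
`α`-Hoelder continuous. -/
def ClassC1Holder (α : ℝ) (ρ : ℝ) (f : ℝ → ℝ) : Prop :=
  (∀ s ∈ Ioo (-ρ) ρ, DifferentiableAt ℝ f s) ∧
    ∃ C : ℝ, ∀ s ∈ Ioo (-ρ) ρ, ∀ t ∈ Ioo (-ρ) ρ, |deriv f s - deriv f t| ≤ C * |s - t| ^ α

/-- `f` is `C^∞` on `(-ρ, ρ)`. -/
def ClassSmooth (ρ : ℝ) (f : ℝ → ℝ) : Prop := ContDiffOn ℝ ∞ f (Ioo (-ρ) ρ)

/-- `f` is real-analytic on `(-ρ, ρ)`. -/
def ClassAnalytic (ρ : ℝ) (f : ℝ → ℝ) : Prop := AnalyticOnNhd ℝ f (Ioo (-ρ) ρ)

/-! ### Transport from the complex plane -/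

open Pool.Agent.Q175.FB

/-- identification of `ℂ` with the Euclidean plane -/
noncomputable def e : ℂ ≃ₗᵢ[ℝ] E2 := Complex.orthonormalBasisOneI.repr

lemma e_zero (z : ℂ) : e z 0 = z.re := by
  simp [e, Complex.orthonormalBasisOneI_repr_apply]

lemma e_one (z : ℂ) : e z 1 = z.im := by
  simp [e, Complex.orthonormalBasisOneI_repr_apply]

lemma es_re (x : E2) : (e.symm x).re = x 0 := by rw [← e_zero, e.apply_symm_apply]

lemma es_im (x : E2) : (e.symm x).im = x 1 := by rw [← e_one, e.apply_symm_apply]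

lemma e_symm_single_zero : e.symm (EuclideanSpace.single 0 1) = 1 := by
  simp [e, OrthonormalBasis.repr_symm_single, Complex.coe_orthonormalBasisOneI]

lemma e_symm_single_one : e.symm (EuclideanSpace.single 1 1) = Complex.I := by
  simp [e, OrthonormalBasis.repr_symm_single, Complex.coe_orthonormalBasisOneI]

/-- the domain -/
def D : Set E2 := {x | hh (x 1) < x 0}

/-- the solution -/
noncomputable def u (x : E2) : ℝ := uu (e.symm x)

lemma D_eq : D = e.symm ⁻¹' DC := by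
  ext x
  change hh (x 1) < x 0 ↔ hh (e.symm x).im < (e.symm x).re
  rw [es_re, es_im]

lemma mem_D (x : E2) : x ∈ D ↔ e.symm x ∈ DC := by rw [D_eq]; rfl

lemma D_open : IsOpen D := by
  rw [D_eq]; exact DC_open.preimage e.symm.continuous

lemma D_convex : Convex ℝ D := by
  rw [D_eq]
  exact DC_convex.linear_preimage (e.symm.toLinearEquiv : E2 →ₗ[ℝ] ℂ)

lemma frontier_D : frontier D = {x | hh (x 1) = x 0} := by
  have h1 : frontier D = e.symm ⁻¹' (frontier DC) := by
    rw [D_eq]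
    exact (e.symm.toHomeomorph.preimage_frontier DC).symm
  rw [h1, frontier_DC]
  ext x
  change hh (e.symm x).im = (e.symm x).re ↔ hh (x 1) = x 0
  rw [es_re, es_im]

lemma closure_D (x : E2) : x ∈ closure D ↔ e.symm x ∈ closure DC := by
  have h1 : closure D = e.symm ⁻¹' (closure DC) := by
    rw [D_eq]
    exact (e.symm.toHomeomorph.preimage_closure DC).symm
  rw [h1]; rfl

lemma D_lipschitz : IsLipschitzDomain D := by
  refine ⟨D_open, ⟨⟨EuclideanSpace.single 0 1, ?_⟩, D_convex.isPreconnected⟩, ?_⟩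
  · change hh ((EuclideanSpace.single 0 1 : E2) 1) < (EuclideanSpace.single 0 1 : E2) 0
    simp [hh_zero]
  · intro p _
    refine ⟨LinearIsometryEquiv.refl ℝ E2, fun s => hh (s + p 1) - p 0, Real.toNNReal (Real.pi / 6), 1,
      ?_, one_pos, ?_⟩
    · apply LipschitzWith.of_dist_le_mul
      intro s t
      have := hh_lip.dist_le_mul (s + p 1) (t + p 1)
      simpa [Real.dist_eq] using this
    · intro x _
      change hh (x 1) < x 0 ↔ hh ((x - p) 1 + p 1) - p 0 < (x - p) 0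
      have e1 : (x - p) 1 + p 1 = x 1 := by simp
      have e2 : (x - p) 0 = x 0 - p 0 := by simp
      rw [e1, e2]
      constructor <;> intro h <;> linarith

lemma zero_mem_frontier : (0 : E2) ∈ frontier D := by
  rw [frontier_D]
  change hh ((0 : E2) 1) = (0 : E2) 0
  simp [hh_zero]

/-! ### The solution -/

lemma hasFDerivAt_u {x : E2} (hx : ‖x‖ < 2) :
    HasFDerivAt u ((rl (gg (e.symm x))).comp (e.symm : E2 →L[ℝ] ℂ)) x := by
  have h1 : HasFDerivAt uu (rl (gg (e.symm x))) (e.symm x) := hasFDerivAt_uu (by simpa using hx)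
  exact h1.comp x (e.symm : E2 →L[ℝ] ℂ).hasFDerivAt

/-- `rl` as a continuous linear map -/
noncomputable def rlL : ℂ →L[ℝ] (E2 →L[ℝ] ℝ) :=
  LinearMap.toContinuousLinearMap
    { toFun := fun a => (rl a).comp (e.symm : E2 →L[ℝ] ℂ)
      map_add' := by
        intro a b; ext v; simp [rl_apply, add_mul]
      map_smul' := by
        intro a b; ext v; simp [rl_apply]; ring }

lemma rlL_apply (a : ℂ) : rlL a = (rl a).comp (e.symm : E2 →L[ℝ] ℂ) := rfl

lemma rlL_norm (a : ℂ) : ‖rlL a‖ ≤ ‖a‖ := by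
  rw [rlL_apply]
  refine ContinuousLinearMap.opNorm_le_bound _ (norm_nonneg _) fun v => ?_
  have h1 := (rl a).le_opNorm (e.symm v)
  have h2 := rl_norm_le a
  have h3 : ‖e.symm v‖ = ‖v‖ := e.symm.norm_map v
  rw [h3] at h1
  exact h1.trans (by gcongr)

lemma fderiv_u {x : E2} (hx : ‖x‖ < 2) : fderiv ℝ u x = rlL (gg (e.symm x)) :=
  (hasFDerivAt_u hx).fderiv

lemma u_C11 : C11Loc u (Metric.ball 0 2) := by
  refine ⟨fun x hx => (hasFDerivAt_u (by simpa using hx)).differentiableAt, fun x hx => ?_⟩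
  refine ⟨4, univ, univ_mem, ?_⟩
  apply LipschitzOnWith.of_dist_le_mul
  rintro y ⟨-, hy⟩ z ⟨-, hz⟩
  rw [mem_ball_zero_iff] at hy hz
  rw [fderiv_u hy, fderiv_u hz, dist_eq_norm, ← map_sub]
  refine (rlL_norm _).trans ?_
  have h1 := gg_lip (z := e.symm y) (z' := e.symm z) (by simpa using hy) (by simpa using hz)
  rw [← map_sub, e.symm.norm_map] at h1
  rw [dist_eq_norm]
  exact h1

lemma u_zero {x : E2} (hx : x ∉ closure D) : u =ᶠ[𝓝 x] fun _ => 0 := by
  filter_upwards [isClosed_closure.isOpen_compl.mem_nhds hx] with y hy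
  unfold u
  refine uu_off fun h => hy (subset_closure ?_)
  rwa [mem_D]

lemma lap_off {x : E2} (hx : x ∉ closure D) :
    DifferentiableAt ℝ (fderiv ℝ u) x ∧ lap u x = x 0 * D.indicator (fun _ => (1 : ℝ)) x := by
  have h1 : fderiv ℝ u =ᶠ[𝓝 x] fun _ => 0 := by
    have h2 := (u_zero hx).eventuallyEq_nhds
    filter_upwards [h2] with y hy
    rw [hy.fderiv_eq]; simp
  have h3 : HasFDerivAt (fderiv ℝ u) (0 : E2 →L[ℝ] (E2 →L[ℝ] ℝ)) x :=
    (hasFDerivAt_const (0 : E2 →L[ℝ] ℝ) x).congr_of_eventuallyEq h1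
  refine ⟨h3.differentiableAt, ?_⟩
  have h4 : x ∉ D := fun h => hx (subset_closure h)
  rw [indicator_of_notMem h4, mul_zero]
  unfold lap
  rw [h3.fderiv]
  simp

lemma lap_in {x : E2} (hx : x ∈ D) (hx2 : ‖x‖ < 2) :
    DifferentiableAt ℝ (fderiv ℝ u) x ∧ lap u x = x 0 * D.indicator (fun _ => (1 : ℝ)) x := by
  have hV : e.symm x ∈ VV := ⟨(mem_D x).mp hx, by
    rw [mem_ball_zero_iff, e.symm.norm_map]; exact hx2⟩
  obtain ⟨b, hb⟩ := hasFDerivAt_gg hV
  have h1 : fderiv ℝ u =ᶠ[𝓝 x] fun y => rlL (gg (e.symm y)) := by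
    filter_upwards [Metric.isOpen_ball.mem_nhds (show x ∈ Metric.ball (0:E2) 2 by rwa [mem_ball_zero_iff])] with y hy
    exact fderiv_u (by rwa [mem_ball_zero_iff] at hy)
  have h2 : HasFDerivAt (fun y => rlL (gg (e.symm y))) _ x :=
    rlL.hasFDerivAt.comp x (hb.comp x (e.symm : E2 →L[ℝ] ℂ).hasFDerivAt)
  have h3 := h2.congr_of_eventuallyEq h1
  refine ⟨h3.differentiableAt, ?_⟩
  rw [indicator_of_mem hx, mul_one]
  unfold lap
  rw [h3.fderiv, Fin.sum_univ_two]
  simp only [ContinuousLinearMap.comp_apply, rlL_apply, rl_apply]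
  have e0 : (e.symm : E2 →L[ℝ] ℂ) (EuclideanSpace.single 0 1) = 1 := e_symm_single_zero
  have e1 : (e.symm : E2 →L[ℝ] ℂ) (EuclideanSpace.single 1 1) = Complex.I := e_symm_single_one
  rw [e0, e1]
  simp [es_re]

/-! ### Regularity of the free boundary -/

lemma boundary_C1 : BoundaryOfClass ClassC1 D := by
  have hpi := Real.pi_pos
  refine ⟨1, one_pos, LinearIsometryEquiv.refl ℝ E2, hh, ?_, ?_⟩
  · have hs : ∀ s ∈ Ioo (-1:ℝ) 1, |s| < 8 / Real.pi := by
      intro s hs
      have h1 : |s| < 1 := abs_lt.mpr hs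
      have h2 : 1 < 8 / Real.pi := by
        rw [lt_div_iff₀ hpi]; have := Real.pi_lt_four; linarith
      linarith
    unfold ClassC1
    have h : ContDiffOn ℝ (0 + 1) hh (Ioo (-1:ℝ) 1) := by
      rw [contDiffOn_succ_iff_deriv_of_isOpen isOpen_Ioo]
      refine ⟨fun s h => (hasDerivAt_hh (hs s h)).differentiableAt.differentiableWithinAt, by simp, ?_⟩
      rw [contDiffOn_zero]
      intro s h
      have h1 : ContinuousAt dh s := continuousAt_dh (hs s h)
      refine h1.continuousWithinAt.congr (fun t ht => (hasDerivAt_hh (hs t ht)).deriv)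
        (hasDerivAt_hh (hs s h)).deriv
    simpa using h
  · intro x _
    rw [frontier_D]
    change hh (x 1) = x 0 ↔ x 0 = hh (x 1)
    exact eq_comm

lemma limit_aux {α : ℝ} (hα : 0 < α) :
    Tendsto (fun t : ℝ => t ^ α * (4 - Real.log t) ^ (1 + α)) (𝓝[>] 0) (𝓝 0) := by
  set β := α / (1 + α) with hβ
  have hβ0 : 0 < β := by positivity
  have h1 : Tendsto (fun t : ℝ => 4 * t ^ β - Real.log t * t ^ β) (𝓝[>] 0) (𝓝 (4 * 0 - 0)) := by
    refine Tendsto.sub (Tendsto.const_mul 4 ?_) (tendsto_log_mul_rpow_nhdsGT_zero hβ0)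
    have := (Real.continuousAt_rpow_const 0 β (Or.inr hβ0.le)).tendsto
    rw [Real.zero_rpow hβ0.ne'] at this
    exact this.mono_left nhdsWithin_le_nhds
  have h2 : Tendsto (fun t : ℝ => (4 * t ^ β - Real.log t * t ^ β) ^ (1 + α)) (𝓝[>] 0) (𝓝 0) := by
    have h3 : ContinuousAt (fun x : ℝ => x ^ (1 + α)) (4 * 0 - 0) :=
      Real.continuousAt_rpow_const _ _ (Or.inr (by positivity))
    have := h3.tendsto.comp h1
    rw [mul_zero, sub_zero, Real.zero_rpow (by positivity)] at this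
    exact this
  refine h2.congr' ?_
  filter_upwards [self_mem_nhdsWithin, mem_nhdsWithin_of_mem_nhds (Iio_mem_nhds (show (0:ℝ) < 1 by norm_num))] with t ht0 ht1
  have ht0' : 0 < t := ht0
  have hlog : Real.log t < 0 := Real.log_neg ht0' ht1
  have e1 : 4 * t ^ β - Real.log t * t ^ β = t ^ β * (4 - Real.log t) := by ring
  rw [e1, Real.mul_rpow (by positivity) (by linarith), ← Real.rpow_mul ht0'.le, hβ]
  congr 2
  field_simp

lemma not_holder {α : ℝ} (hα : 0 < α) : ¬ BoundaryOfClass (ClassC1Holder α) D := by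
  rintro ⟨ρ, hρ, R, f, ⟨hdiff, C, hC⟩, hgraph⟩
  have hpi := Real.pi_pos
  have hf0 : f 0 = 0 := by
    have := (hgraph 0 (by simpa using hρ)).mp zero_mem_frontier
    simp at this
    exact this.symm
  set m := deriv f 0 with hm
  -- Taylor estimate
  have hC0 : 0 ≤ |C| := abs_nonneg C
  have htay : ∀ s ∈ Ioo (-ρ) ρ, |f s - m * s| ≤ |C| * |s| ^ (1 + α) := by
    intro s hs
    have hsub : segment ℝ (0:ℝ) s ⊆ Ioo (-ρ) ρ := (convex_Ioo _ _).segment_subset ⟨by linarith, hρ⟩ hs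
    have hb : ∀ t ∈ segment ℝ (0:ℝ) s, ‖deriv f t - m‖ ≤ |C| * |s| ^ α := by
      intro t ht
      have h1 := hC t (hsub ht) 0 ⟨by linarith, hρ⟩
      rw [sub_zero] at h1
      have h2 : |t| ≤ |s| := by
        rw [segment_eq_uIcc] at ht
        rcases le_total 0 s with h | h
        · rw [uIcc_of_le h] at ht
          rw [abs_of_nonneg ht.1, abs_of_nonneg h]; exact ht.2
        · rw [uIcc_of_ge h] at ht
          rw [abs_of_nonpos ht.2, abs_of_nonpos h]; linarith [ht.1]
      rw [Real.norm_eq_abs]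
      refine h1.trans ?_
      have h3 : |t| ^ α ≤ |s| ^ α := Real.rpow_le_rpow (abs_nonneg _) h2 hα.le
      have h4 : 0 ≤ |t| ^ α := by positivity
      have h5 := le_abs_self C
      nlinarith
    have hd : ∀ t ∈ segment ℝ (0:ℝ) s, HasDerivWithinAt (fun t => f t - m * t) (deriv f t - m)
        (segment ℝ (0:ℝ) s) t := by
      intro t ht
      have h1 := (hdiff t (hsub ht)).hasDerivAt
      have h2 : HasDerivAt (fun t : ℝ => m * t) m t := by
        simpa using (hasDerivAt_id t).const_mul m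
      exact (h1.sub h2).hasDerivWithinAt
    have h := Convex.norm_image_sub_le_of_norm_hasDerivWithin_le hd hb (convex_segment _ _)
      (left_mem_segment ℝ 0 s) (right_mem_segment ℝ 0 s)
    simp only [hf0, mul_zero, sub_zero, Real.norm_eq_abs] at h
    refine h.trans (le_of_eq ?_)
    rcases eq_or_ne s 0 with h0 | h0
    · subst h0; simp; right; rw [Real.zero_rpow (by positivity)]
    · rw [Real.rpow_add (abs_pos.mpr h0), Real.rpow_one]; ring
  -- the linear functional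
  set ell : E2 → ℝ := fun x => R x 0 - m * R x 1 with hell
  have hell_add : ∀ x y, ell (x + y) = ell x + ell y := by
    intro x y; simp only [hell, map_add, PiLp.add_apply]; ring
  have hell_smul : ∀ (c : ℝ) x, ell (c • x) = c * ell x := by
    intro c x; simp only [hell, map_smul, PiLp.smul_apply, smul_eq_mul]; ring
  have hbd : ∀ x ∈ frontier D, ‖x‖ < ρ → |ell x| ≤ |C| * ‖x‖ ^ (1 + α) := by
    intro x hx hxρ
    have h1 := (hgraph x (by simpa using hxρ)).mp hx
    have h2 : |R x 1| ≤ ‖x‖ := by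
      have := PiLp.norm_apply_le (R x) 1
      rwa [R.norm_map, Real.norm_eq_abs] at this
    have h3 := htay (R x 1) (abs_lt.mp (lt_of_le_of_lt h2 hxρ))
    simp only [hell]
    rw [h1]
    refine h3.trans ?_
    gcongr
  set a0 := ell (EuclideanSpace.single 0 1) with ha0
  set a1 := ell (EuclideanSpace.single 1 1) with ha1
  have hdec : ∀ x : E2, x = x 0 • EuclideanSpace.single 0 1 + x 1 • EuclideanSpace.single 1 1 := by
    intro x; ext i; fin_cases i <;> simp
  have hell_eq : ∀ x, ell x = a0 * x 0 + a1 * x 1 := by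
    intro x
    conv_lhs => rw [hdec x]
    rw [hell_add, hell_smul, hell_smul]; ring
  -- points of the boundary
  have hpt : ∀ s : ℝ, (!₂[hh s, s] : E2) ∈ frontier D := by
    intro s; rw [frontier_D]; change hh ((!₂[hh s, s] : E2) 1) = (!₂[hh s, s] : E2) 0; simp
  have hnorm : ∀ s : ℝ, ‖(!₂[hh s, s] : E2)‖ ≤ 2 * |s| := by
    intro s
    have h1 : hh s ≤ |s| := by
      have h2 := hh_lip.dist_le_mul s 0
      rw [Real.coe_toNNReal _ (by positivity), Real.dist_eq, Real.dist_eq, hh_zero, sub_zero, sub_zero,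
        abs_of_nonneg (hh_nonneg s)] at h2
      have h3 := Real.pi_lt_four
      have h4 := abs_nonneg s
      nlinarith
    have h5 : (!₂[hh s, s] : E2) = hh s • EuclideanSpace.single 0 1 + s • EuclideanSpace.single 1 1 := by
      ext i; fin_cases i <;> simp
    rw [h5]
    refine (norm_add_le _ _).trans ?_
    rw [norm_smul, norm_smul]
    simp only [PiLp.norm_single, norm_one, mul_one, Real.norm_eq_abs]
    rw [abs_of_nonneg (hh_nonneg s)]
    linarith
  have hmain : ∀ s : ℝ, 0 < s → 2 * s < ρ →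
      |a0 * hh s + a1 * s| ≤ |C| * (2 * s) ^ (1 + α) ∧ |a0 * hh s - a1 * s| ≤ |C| * (2 * s) ^ (1 + α) := by
    intro s hs hsρ
    constructor
    · have h1 := hbd _ (hpt s) (lt_of_le_of_lt (hnorm s) (by rwa [abs_of_pos hs]))
      rw [hell_eq] at h1
      simp only [Matrix.cons_val_zero, Matrix.cons_val_one] at h1
      refine h1.trans ?_
      have := hnorm s
      rw [abs_of_pos hs] at this
      gcongr
    · have h1 := hbd _ (hpt (-s)) (lt_of_le_of_lt (hnorm (-s)) (by rwa [abs_neg, abs_of_pos hs]))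
      rw [hell_eq] at h1
      simp only [Matrix.cons_val_zero, Matrix.cons_val_one, hh_even] at h1
      have e1 : a0 * hh s + a1 * -s = a0 * hh s - a1 * s := by ring
      rw [e1] at h1
      refine h1.trans ?_
      have := hnorm (-s)
      rw [abs_neg, abs_of_pos hs, hh_even] at this
      gcongr
  -- limits
  have hev : ∀ᶠ t in 𝓝[>] (0:ℝ), 0 < t ∧ t < 1 ∧ 2 * (2 / Real.pi * psi t) < ρ := by
    have hc : Tendsto (fun t => 2 * (2 / Real.pi * psi t)) (𝓝[>] (0:ℝ)) (𝓝 0) := by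
      have h1 : ContinuousWithinAt psi (Ici 0) 0 := continuous_psi 0 self_mem_Ici
      have h2 : Tendsto psi (𝓝[>] (0:ℝ)) (𝓝 0) := by
        have := h1.mono_left (nhdsWithin_mono 0 Ioi_subset_Ici_self)
        rwa [psi_zero] at this
      have := (h2.const_mul (2 / Real.pi)).const_mul 2
      simpa using this
    filter_upwards [self_mem_nhdsWithin, mem_nhdsWithin_of_mem_nhds (Iio_mem_nhds (show (0:ℝ) < 1 by norm_num)),
      hc.eventually_lt_const hρ] with t h1 h2 h3
    exact ⟨h1, h2, h3⟩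
  -- parametrize s by t = hh s
  have hkey : ∀ t : ℝ, 0 < t → t < 1 → hh (2 / Real.pi * psi t) = t := by
    intro t ht _
    unfold hh
    apply kk_eq ht.le
    have h1 := psi_nonneg ht.le
    have h2 : 0 ≤ psi t := by linarith
    rw [abs_of_nonneg (by positivity)]
    field_simp
  have ha0z : a0 = 0 := by
    have hlim := (limit_aux hα).const_mul (|C| * (4 / Real.pi) ^ (1 + α))
    rw [mul_zero] at hlim
    have hle : |a0| ≤ 0 := by
      refine ge_of_tendsto hlim ?_
      filter_upwards [hev] with t ⟨ht0, ht1, htρ⟩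
      have hpsi : 0 < psi t := by have := psi_nonneg ht0.le; linarith
      obtain ⟨h1, h2⟩ := hmain (2 / Real.pi * psi t) (by positivity) htρ
      rw [hkey t ht0 ht1] at h1 h2
      set s := 2 / Real.pi * psi t with hs
      have h3 : |2 * (a0 * t)| ≤ 2 * (|C| * (2 * s) ^ (1 + α)) := by
        have : 2 * (a0 * t) = (a0 * t + a1 * s) + (a0 * t - a1 * s) := by ring
        rw [this]
        refine (abs_add_le _ _).trans ?_
        linarith
      rw [abs_mul, abs_of_pos (two_pos), abs_mul, abs_of_pos ht0] at h3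
      have h4 : |a0| * t ≤ |C| * (2 * s) ^ (1 + α) := by linarith
      have h5 : (2 * s) ^ (1 + α) = (4 / Real.pi) ^ (1 + α) * (t ^ α * (4 - Real.log t) ^ (1 + α)) * t := by
        have hlog : Real.log t < 0 := Real.log_neg ht0 ht1
        have e1 : 2 * s = 4 / Real.pi * (t * (4 - Real.log t)) := by
          rw [hs, psi_of_le ht1.le]; ring
        rw [e1, Real.mul_rpow (by positivity) (by apply mul_nonneg ht0.le; linarith),
          Real.mul_rpow ht0.le (by linarith), Real.rpow_add ht0, Real.rpow_one]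
        ring
      rw [h5] at h4
      have h6 : |a0| * t ≤ (|C| * (4 / Real.pi) ^ (1 + α) * (t ^ α * (4 - Real.log t) ^ (1 + α))) * t := by
        calc |a0| * t ≤ _ := h4
          _ = _ := by ring
      exact le_of_mul_le_mul_right h6 ht0
    exact abs_nonpos_iff.mp hle
  have ha1z : a1 = 0 := by
    have hlim : Tendsto (fun s : ℝ => |C| * 2 ^ (1 + α) * s ^ α) (𝓝[>] 0) (𝓝 0) := by
      have h1 := (Real.continuousAt_rpow_const 0 α (Or.inr hα.le)).tendsto
      rw [Real.zero_rpow hα.ne'] at h1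
      have h2 := (h1.mono_left (nhdsWithin_le_nhds (s := Ioi 0))).const_mul (|C| * 2 ^ (1 + α))
      rwa [mul_zero] at h2
    have hle : |a1| ≤ 0 := by
      refine ge_of_tendsto hlim ?_
      filter_upwards [self_mem_nhdsWithin, mem_nhdsWithin_of_mem_nhds (Iio_mem_nhds (show (0:ℝ) < ρ / 2 by positivity))] with s hs0 hs1
      have hs0' : 0 < s := hs0
      have hs1' : s < ρ / 2 := hs1
      obtain ⟨h1, h2⟩ := hmain s hs0' (by linarith)
      rw [ha0z, zero_mul, zero_add, abs_mul, abs_of_pos hs0'] at h1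
      have h5 : (2 * s) ^ (1 + α) = 2 ^ (1 + α) * s ^ α * s := by
        rw [Real.mul_rpow (by norm_num) hs0'.le, Real.rpow_add hs0' 1 α, Real.rpow_one]
        ring
      rw [h5] at h1
      have h6 : |a1| * s ≤ (|C| * 2 ^ (1 + α) * s ^ α) * s := by
        calc |a1| * s ≤ _ := h1
          _ = _ := by ring
      exact le_of_mul_le_mul_right h6 hs0'
    exact abs_nonpos_iff.mp hle
  have h1 := hell_eq (R.symm (EuclideanSpace.single 0 1))
  rw [ha0z, ha1z] at h1
  simp [hell] at h1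

lemma class_mono {𝒞₁ 𝒞₂ : ℝ → (ℝ → ℝ) → Prop} {D : Set E2}
    (h : ∀ ρ f, 0 < ρ → 𝒞₁ ρ f → ∃ ρ', 0 < ρ' ∧ ρ' ≤ ρ ∧ 𝒞₂ ρ' f) :
    BoundaryOfClass 𝒞₁ D → BoundaryOfClass 𝒞₂ D := by
  rintro ⟨ρ, hρ, R, f, hf, hg⟩
  obtain ⟨ρ', hρ', hle, hf'⟩ := h ρ f hρ hf
  exact ⟨ρ', hρ', R, f, hf', fun x hx => hg x (Metric.ball_subset_ball hle hx)⟩

lemma smooth_to_holder (ρ : ℝ) (f : ℝ → ℝ) (hρ : 0 < ρ) (hf : ClassSmooth ρ f) :
    ∃ ρ', 0 < ρ' ∧ ρ' ≤ ρ ∧ ClassC1Holder 1 ρ' f := by
  have h0 : (0:ℝ) ∈ Ioo (-ρ) ρ := ⟨by linarith, hρ⟩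
  have h1' : ContDiffOn ℝ ((2 : ℕ) : ℕ∞ω) f (Ioo (-ρ) ρ) := hf.of_le ENat.LEInfty.out
  have h1 : ContDiffOn ℝ (1 + 1) f (Ioo (-ρ) ρ) := by
    have e1 : (1 + 1 : ℕ∞ω) = ((2 : ℕ) : ℕ∞ω) := by norm_num
    rw [e1]; exact h1'
  rw [contDiffOn_succ_iff_deriv_of_isOpen isOpen_Ioo] at h1
  obtain ⟨hd, -, h2⟩ := h1
  have h3 : ContDiffAt ℝ 1 (deriv f) 0 := h2.contDiffAt (isOpen_Ioo.mem_nhds h0)
  obtain ⟨K, U, hU, hK⟩ := h3.exists_lipschitzOnWith
  obtain ⟨ε, hε, hεU⟩ := Metric.mem_nhds_iff.mp hU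
  refine ⟨min ε ρ, lt_min hε hρ, min_le_right _ _, ?_, (K : ℝ), ?_⟩
  · intro s hs
    have : s ∈ Ioo (-ρ) ρ := ⟨by linarith [hs.1, min_le_right ε ρ], by linarith [hs.2, min_le_right ε ρ]⟩
    exact (hd s this).differentiableAt (isOpen_Ioo.mem_nhds this)
  · intro s hs t ht
    have hU' : ∀ s ∈ Ioo (-(min ε ρ)) (min ε ρ), s ∈ U := by
      intro s hs
      apply hεU
      rw [Metric.mem_ball, dist_zero_right, Real.norm_eq_abs, abs_lt]
      exact ⟨by linarith [hs.1, min_le_left ε ρ], by linarith [hs.2, min_le_left ε ρ]⟩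
    have := hK.dist_le_mul s (hU' s hs) t (hU' t ht)
    rw [Real.dist_eq, Real.dist_eq] at this
    rwa [Real.rpow_one]

lemma not_smooth : ¬ BoundaryOfClass ClassSmooth D := fun h =>
  not_holder one_pos (class_mono smooth_to_holder h)

lemma not_analytic : ¬ BoundaryOfClass ClassAnalytic D := fun h =>
  not_smooth (class_mono (fun ρ _ hρ hf => ⟨ρ, hρ, le_rfl, hf.contDiffOn (uniqueDiffOn_Ioo _ _)⟩) h)

/-- There are a Lipschitz domain `D` of the plane with `0` on its boundary and a solution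
`u ∈ C^{1,1}_loc(B₂)` of `Δu = x₁ χ_D`, `u = 0` outside the closure of `D`, such that the boundary
of `D` is `C^1` near `0`, but it is not of class `C^{1,α}` near `0` for any `α > 0`; in particular
it is neither `C^∞` nor real-analytic near `0`. -/
theorem result : ∃ (D : Set E2) (u : E2 → ℝ),
    IsLipschitzDomain D ∧ (0 : E2) ∈ frontier D ∧ IsSolution D u ∧
    BoundaryOfClass ClassC1 D ∧
    (∀ α : ℝ, 0 < α → ¬ BoundaryOfClass (ClassC1Holder α) D) ∧
    ¬ BoundaryOfClass ClassSmooth D ∧ ¬ BoundaryOfClass ClassAnalytic D := by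
  refine ⟨D, u, D_lipschitz, zero_mem_frontier, ⟨u_C11, ?_, ?_⟩, boundary_C1,
    fun α hα => not_holder hα, not_smooth, not_analytic⟩
  · have h1 : ∀ᵐ x ∂(volume.restrict (Metric.ball (0 : E2) 2)), x ∉ frontier D := by
      apply ae_restrict_of_ae
      exact compl_mem_ae_iff.mpr (D_convex.addHaar_frontier volume)
    filter_upwards [h1, ae_restrict_mem measurableSet_ball] with x hx hx2
    rw [mem_ball_zero_iff] at hx2
    by_cases hc : x ∈ closure D
    · have hD : x ∈ D := by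
        by_contra hD
        apply hx
        rw [frontier, D_open.interior_eq]
        exact ⟨hc, hD⟩
      exact lap_in hD hx2
    · exact lap_off hc
  · rintro x ⟨-, hx⟩
    exact (u_zero hx).self_of_nhds

end Pool.Agent.Results.MP_056161_an.C1NotHolder
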